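import Pool.Agent.H87.ST.Final

/-!
# A combinatorial strongly polynomial algorithm for S-T edge-connectivity augmentation

`algorithm` (defined in `Pool.Agent.H87.ST.Defs`) is an explicit program for a machine whose only
arithmetic operations are additions, subtractions and comparisons of integers. On every input
(digraph with `n` vertices and `m` arcs, vertex sets `S`, `T`, requirement `k`) it computes a vector
of new arcs from `S` to `T` of minimum total size making the digraph `k`-edge-connected from `S` to
`T`. The number of operations is bounded by a polynomial in `n + m` alone, and all numbers that it
meets have a number of bits bounded by a polynomial in `n + m` plus the number of bits of `k`.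

Idea. (1) Min-max theorem (Frank and Jordan), proved by uncrossing and a chain decomposition; hence
the linear relaxation has an integral optimum. (2) `testC` decides whether the minimum is at most
`(vQ - 1) / 2`: it keeps one integer potential for every arc from `S` to `T`, searches by augmenting
paths for a deficient cut in the digraph in which these arcs have the positive parts of the
potentials as capacities, and updates the potentials with that cut; after polynomially many rounds
(for `k` polynomially bounded) the answer is certain, because of (1). (3) Arcs are added greedily.
(4) If `k ≥ K0 = |S| |T| m + 1`, an optimal solution is `x + (k - K0) y`, where `x` is optimal for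
`K0` and `y` is optimal for the arcless digraph with requirement one.
-/

namespace Pool.Agent.Results.MP_d0804a_lc.StronglyPolynomial

open Pool.Agent.H87.ST

theorem result :
    (∃ C d : ℕ, ∀ (n m : ℕ) (tail head : Fin m → Fin n) (S T : Finset (Fin n)) (k : ℕ),
      algorithm.cost (input tail head S T k) ≤ C * (n + m + 2) ^ d ∧
      (algorithm.peak (input tail head S T k)).size ≤ C * (n + m + 2) ^ d + k.size) ∧
    ∀ (n m : ℕ) (tail head : Fin m → Fin n) (S T : Finset (Fin n)) (k : ℕ),
      ∃ x : Fin n → Fin n → ℕ,
        (∀ u v : Fin n,
          (algorithm.run (input tail head S T k)).a aOut (u : ℕ) (v : ℕ) = x u v) ∧
        IsMinimumAugmentation tail head S T k x := by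
  refine ⟨⟨56 + mainC.size, 650, fun n m tail head S T k => ⟨?_, ?_⟩⟩, ?_⟩
  · refine (algorithm_cost tail head S T k).trans ?_
    exact Nat.mul_le_mul_right _ (by omega)
  · exact algorithm_peak tail head S T k
  · intro n m tail head S T k
    exact algorithm_correct tail head S T k

end Pool.Agent.Results.MP_d0804a_lc.StronglyPolynomial
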